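import Pool.Agent.Q149.ND.Lam

/-!
# Project ND, job GRAPH: the stable spaces of graphs
-/

set_option autoImplicit false
set_option linter.unusedSectionVars false
set_option linter.unusedSimpArgs false

namespace Pool.Agent.Q149.ND.GR

open Pool.Agent.Q45.ND
open Pool.Agent.Q149.ND.LM (vw vw_alt vw_ev lam_vw lam_add lam_smul)

variable {Ω : Type} [Fintype Ω] [LinearOrder Ω]

/-- the sum over the ordered pairs, with values in a group of exponent two -/
theorem gsym {N : Type} [AddCommGroup N] (h2 : ∀ x : N, x + x = 0) (Z : Ω → Ω → N) :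
    ∑ i, ∑ j, (if i < j then Z i j + Z j i else 0) = ∑ i, ∑ j, Z i j + ∑ i, Z i i := by
  have h1 : ∀ i j, Z i j = (if i < j then Z i j else 0) + (if j < i then Z i j else 0) +
      (if i = j then Z i j else 0) := by
    intro i j
    rcases lt_trichotomy i j with h | h | h
    · simp [h, h.not_gt, h.ne]
    · subst h; simp
    · simp [h, h.not_gt, h.ne']
  have h3 : ∑ i, ∑ j, Z i j = ∑ i, ∑ j, (if i < j then Z i j else 0) +
      ∑ i, ∑ j, (if j < i then Z i j else 0) + ∑ i, ∑ j, (if i = j then Z i j else 0) := by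
    rw [← Finset.sum_add_distrib, ← Finset.sum_add_distrib]
    refine Finset.sum_congr rfl (fun i _ => ?_)
    rw [← Finset.sum_add_distrib, ← Finset.sum_add_distrib]
    exact Finset.sum_congr rfl (fun j _ => h1 i j)
  have h4 : ∑ i, ∑ j, (if j < i then Z i j else 0) = ∑ i, ∑ j, (if i < j then Z j i else 0) :=
    Finset.sum_comm
  have h5 : ∑ i, ∑ j, (if i = j then Z i j else 0) = ∑ i, Z i i := by
    refine Finset.sum_congr rfl (fun i _ => ?_)
    simp
  have h6 : ∑ i, ∑ j, (if i < j then Z i j + Z j i else 0) =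
      ∑ i, ∑ j, (if i < j then Z i j else 0) + ∑ i, ∑ j, (if i < j then Z j i else 0) := by
    rw [← Finset.sum_add_distrib]
    refine Finset.sum_congr rfl (fun i _ => ?_)
    rw [← Finset.sum_add_distrib]
    refine Finset.sum_congr rfl (fun j _ => ?_)
    split_ifs <;> simp
  rw [h6, h3, h4, h5, add_assoc, h2, add_zero]

/-- the vertex `i` -/
def dl (i : Ω) : Ω → ZMod 2 := Pi.single i 1

theorem dl_self (i : Ω) : dl i i = 1 := Pi.single_eq_same _ _

theorem dl_ne {i p : Ω} (h : p ≠ i) : dl i p = 0 := Pi.single_eq_of_ne h _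

theorem dl_comm (i p : Ω) : dl i p = dl p i := by
  by_cases h : p = i
  · rw [h]
  · rw [dl_ne h, dl_ne (Ne.symm h)]

theorem sum_dl (i : Ω) : ∑ p, dl i p = 1 := by simp [dl]

theorem sum_dl_mul (f : Ω → ZMod 2) (j : Ω) : ∑ m, f m * dl j m = f j :=
  Pool.Agent.Q149.ND.LM.sum_mul_single f j

theorem mat2 (X : Matrix Ω Ω (ZMod 2)) : X + X = 0 := by
  ext i j
  exact CharTwo.add_self_eq_zero _

theorem vw_add_left (a b c : Ω → ZMod 2) : vw (a + b) c = vw a c + vw b c := by
  ext i j
  simp only [vw, Matrix.of_apply, Matrix.add_apply, Pi.add_apply]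
  ring

theorem vw_add_right (a b c : Ω → ZMod 2) : vw a (b + c) = vw a b + vw a c := by
  ext i j
  simp only [vw, Matrix.of_apply, Matrix.add_apply, Pi.add_apply]
  ring

theorem vw_symm (a b : Ω → ZMod 2) : vw a b = vw b a := by
  ext i j
  simp only [vw, Matrix.of_apply]
  ring

theorem vw_self (a : Ω → ZMod 2) : vw a a = 0 := by
  ext i j
  simp only [vw, Matrix.of_apply, Matrix.zero_apply]
  exact CharTwo.add_self_eq_zero _

theorem vw_zero_left (a : Ω → ZMod 2) : vw 0 a = 0 := by
  ext i j
  simp only [vw, Matrix.of_apply, Matrix.zero_apply, Pi.zero_apply]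
  ring

theorem vw_zero_right (a : Ω → ZMod 2) : vw a 0 = 0 := by rw [vw_symm, vw_zero_left]

theorem vw_smul_right (c : ZMod 2) (a b : Ω → ZMod 2) : vw a (c • b) = c • vw a b := by
  ext i j
  simp only [vw, Matrix.of_apply, Matrix.smul_apply, Pi.smul_apply, smul_eq_mul]
  ring

theorem vw_sum_right {ι : Type} (s : Finset ι) (a : Ω → ZMod 2) (b : ι → Ω → ZMod 2) :
    vw a (∑ m ∈ s, b m) = ∑ m ∈ s, vw a (b m) := by
  classical
  induction s using Finset.induction_on with
  | empty => rw [Finset.sum_empty, Finset.sum_empty, vw_zero_right]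
  | insert x s hx ih => rw [Finset.sum_insert hx, Finset.sum_insert hx, vw_add_right, ih]

theorem vw_sub (a b : Ω → ZMod 2) (s : Equiv.Perm Ω) :
    (vw a b).submatrix s s = vw (a ∘ s) (b ∘ s) := by
  ext i j
  simp only [vw, Matrix.of_apply, Matrix.submatrix_apply, Function.comp]

theorem dl_comp (i : Ω) (s : Equiv.Perm Ω) : dl (s i) ∘ s = dl i := by
  funext p
  by_cases h : p = i
  · rw [Function.comp, h, dl_self, dl_self]
  · rw [Function.comp, dl_ne h, dl_ne (fun h' => h (s.injective h'))]

/-- the commutator of two wedges -/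
theorem vw_comm (a b c d : Ω → ZMod 2) : vw a b * vw c d - vw c d * vw a b =
    (∑ m, b m * c m) • vw a d + (∑ m, b m * d m) • vw a c + (∑ m, a m * c m) • vw b d +
      (∑ m, a m * d m) • vw b c := by
  ext p q
  rw [Matrix.sub_apply, CharTwo.sub_eq_add, Matrix.mul_apply, Matrix.mul_apply]
  simp only [vw, Matrix.of_apply, Matrix.add_apply, Matrix.smul_apply, smul_eq_mul]
  simp only [Finset.sum_mul]
  rw [← Finset.sum_add_distrib, ← Finset.sum_add_distrib, ← Finset.sum_add_distrib,
    ← Finset.sum_add_distrib]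
  refine Finset.sum_congr rfl (fun m _ => ?_)
  ring

/-- the degree vector -/
def deg (X : Matrix Ω Ω (ZMod 2)) : Ω → ZMod 2 := fun i => ∑ j, X i j

theorem deg_add (X Y : Matrix Ω Ω (ZMod 2)) : deg (X + Y) = deg X + deg Y := by
  funext i
  simp only [deg, Matrix.add_apply, Pi.add_apply]
  rw [Finset.sum_add_distrib]

theorem deg_smul (c : ZMod 2) (X : Matrix Ω Ω (ZMod 2)) : deg (c • X) = c • deg X := by
  funext i
  simp only [deg, Matrix.smul_apply, Pi.smul_apply, smul_eq_mul]
  rw [Finset.mul_sum]

theorem deg_sum {ι : Type} (s : Finset ι) (f : ι → Matrix Ω Ω (ZMod 2)) :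
    deg (∑ m ∈ s, f m) = ∑ m ∈ s, deg (f m) := by
  classical
  induction s using Finset.induction_on with
  | empty =>
    rw [Finset.sum_empty, Finset.sum_empty]
    funext i
    simp [deg]
  | insert x s hx ih => rw [Finset.sum_insert hx, Finset.sum_insert hx, deg_add, ih]

theorem deg_vw (a b : Ω → ZMod 2) : deg (vw a b) = (∑ m, b m) • a + (∑ m, a m) • b := by
  funext i
  simp only [deg, vw, Matrix.of_apply, Pi.add_apply, Pi.smul_apply, smul_eq_mul]
  rw [Finset.sum_add_distrib, ← Finset.mul_sum, ← Finset.mul_sum]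
  ring

/-- the handshake lemma -/
theorem handshake {X : Matrix Ω Ω (ZMod 2)} (hX : IsAlt X) : ∑ i, deg X i = 0 := by
  have h1 := gsym (fun x : ZMod 2 => CharTwo.add_self_eq_zero x) (fun i j => X i j)
  have h2 : ∑ i, ∑ j, (if i < j then X i j + X j i else 0) = 0 := by
    refine Finset.sum_eq_zero (fun i _ => Finset.sum_eq_zero (fun j _ => ?_))
    split_ifs
    · rw [hX.2 j i, CharTwo.add_self_eq_zero]
    · rfl
  have h3 : ∑ i, X i i = 0 := Finset.sum_eq_zero (fun i _ => hX.1 i)
  rw [h2, h3, add_zero] at h1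
  exact h1.symm

theorem dec {X : Matrix Ω Ω (ZMod 2)} (hX : IsAlt X) :
    X = ∑ i, ∑ j, (if i < j then X i j • vw (dl i) (dl j) else 0) := by
  ext p q
  rw [Matrix.sum_apply]
  have h1 := gsym (fun x : ZMod 2 => CharTwo.add_self_eq_zero x)
    (fun i j => X i j * (dl i p * dl j q))
  have h2 : ∑ i, ∑ j, X i j * (dl i p * dl j q) = X p q := by
    rw [Finset.sum_eq_single p]
    · rw [Finset.sum_eq_single q]
      · rw [dl_self, dl_self, mul_one, mul_one]
      · intro b _ hb
        rw [dl_ne (Ne.symm hb), mul_zero, mul_zero]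
      · intro h; exact absurd (Finset.mem_univ q) h
    · intro b _ hb
      refine Finset.sum_eq_zero (fun j _ => ?_)
      rw [dl_ne (Ne.symm hb), zero_mul, mul_zero]
    · intro h; exact absurd (Finset.mem_univ p) h
  have h3 : ∑ i, X i i * (dl i p * dl i q) = 0 :=
    Finset.sum_eq_zero (fun i _ => by rw [hX.1 i, zero_mul])
  rw [h2, h3, add_zero] at h1
  rw [← h1]
  refine Finset.sum_congr rfl (fun i _ => ?_)
  rw [Matrix.sum_apply]
  refine Finset.sum_congr rfl (fun j _ => ?_)
  split_ifs
  · simp only [vw, Matrix.smul_apply, Matrix.of_apply, smul_eq_mul]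
    rw [hX.2 j i]
    ring
  · rfl

/-- the triangles through `o` -/
def tri (o i j : Ω) : Matrix Ω Ω (ZMod 2) := vw (dl i + dl o) (dl j + dl o)

theorem tri_left (o j : Ω) : tri o o j = 0 := by
  unfold tri
  have : dl o + dl o = 0 := by funext p; exact CharTwo.add_self_eq_zero _
  rw [this, vw_zero_left]

theorem tri_right (o i : Ω) : tri o i o = 0 := by
  unfold tri
  have : dl o + dl o = 0 := by funext p; exact CharTwo.add_self_eq_zero _
  rw [this, vw_zero_right]

theorem tri_symm (o i j : Ω) : tri o i j = tri o j i := vw_symm _ _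

theorem decT (o : Ω) {X : Matrix Ω Ω (ZMod 2)} (hX : IsAlt X) (hE : IsEv X) :
    X = ∑ i, ∑ j, (if i < j then X i j • tri o i j else 0) := by
  have h1 : ∀ i j, tri o i j = vw (dl i) (dl j) + (vw (dl i) (dl o) + vw (dl j) (dl o)) := by
    intro i j
    unfold tri
    rw [vw_add_left, vw_add_right, vw_add_right, vw_self, add_zero, vw_symm (dl o) (dl j)]
    abel
  have h2 : ∑ i, ∑ j, (if i < j then X i j • tri o i j else 0) =
      ∑ i, ∑ j, (if i < j then X i j • vw (dl i) (dl j) else 0) +
      ∑ i, ∑ j, (if i < j then X i j • vw (dl i) (dl o) + X j i • vw (dl j) (dl o) else 0) := by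
    rw [← Finset.sum_add_distrib]
    refine Finset.sum_congr rfl (fun i _ => ?_)
    rw [← Finset.sum_add_distrib]
    refine Finset.sum_congr rfl (fun j _ => ?_)
    split_ifs
    · rw [h1, hX.2 j i, smul_add, smul_add]
    · rw [add_zero]
  rw [h2, ← dec hX, gsym mat2 (fun i j => X i j • vw (dl i) (dl o))]
  have h3 : ∑ i, ∑ j, X i j • vw (dl i) (dl o) = 0 := by
    refine Finset.sum_eq_zero (fun i _ => ?_)
    rw [← Finset.sum_smul, hE i, zero_smul]
  have h4 : ∑ i, X i i • vw (dl i) (dl o) = 0 :=
    Finset.sum_eq_zero (fun i _ => by rw [hX.1 i, zero_smul])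
  rw [h3, h4, add_zero, add_zero]

theorem lam_tri {o i j : Ω} (hij : i ≠ j) (hi : i ≠ o) (hj : j ≠ o) : lam (tri o i j) = 1 := by
  unfold tri
  have h0 : ∑ p, (dl i + dl o) p = 0 := by
    simp only [Pi.add_apply]
    rw [Finset.sum_add_distrib, sum_dl, sum_dl]
    decide
  rw [lam_vw h0]
  have h1 : ∀ p, (dl i + dl o) p * (dl j + dl o) p = (dl i + dl o) p * dl j p +
      (dl i + dl o) p * dl o p := by
    intro p
    simp only [Pi.add_apply]
    ring
  rw [Finset.sum_congr rfl (fun p _ => h1 p), Finset.sum_add_distrib, sum_dl_mul, sum_dl_mul,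
    Pi.add_apply, Pi.add_apply, dl_self, dl_ne (Ne.symm hij), dl_ne hj, dl_ne (Ne.symm hi)]
  decide

theorem lam_sum {ι : Type} (s : Finset ι) (f : ι → Matrix Ω Ω (ZMod 2)) :
    lam (∑ m ∈ s, f m) = ∑ m ∈ s, lam (f m) := by
  classical
  induction s using Finset.induction_on with
  | empty =>
    rw [Finset.sum_empty, Finset.sum_empty]
    unfold lam
    simp
  | insert x s hx ih => rw [Finset.sum_insert hx, Finset.sum_insert hx, lam_add, ih]

theorem lam_zero : lam (0 : Matrix Ω Ω (ZMod 2)) = 0 := by
  unfold lam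
  simp

section sub

variable {U : Submodule (ZMod 2) (Matrix Ω Ω (ZMod 2))}

/-- all the four-cycles are in `U` -/
def C4 (U : Submodule (ZMod 2) (Matrix Ω Ω (ZMod 2))) : Prop :=
  ∀ i j k l : Ω, i ≠ j → k ≠ l → i ≠ k → i ≠ l → j ≠ k → j ≠ l →
    vw (dl i + dl j) (dl k + dl l) ∈ U

theorem ev_mem (o : Ω) (ht : ∀ i j : Ω, i ≠ j → i ≠ o → j ≠ o → tri o i j ∈ U)
    {X : Matrix Ω Ω (ZMod 2)} (hX : IsAlt X) (hE : IsEv X) : X ∈ U := by
  rw [decT o hX hE]
  refine U.sum_mem (fun i _ => U.sum_mem (fun j _ => ?_))
  split_ifs with h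
  · apply U.smul_mem
    by_cases hi : i = o
    · rw [hi, tri_left]; exact U.zero_mem
    · by_cases hj : j = o
      · rw [hj, tri_right]; exact U.zero_mem
      · exact ht i j h.ne hi hj
  · exact U.zero_mem

/-- a space which contains the triangles and all the degree vectors `e_a + e_b` -/
theorem all_mem (hU : ∀ X ∈ U, IsAlt X) (o : Ω)
    (ht : ∀ i j : Ω, i ≠ j → i ≠ o → j ≠ o → tri o i j ∈ U)
    (hp : ∀ a b : Ω, a ≠ b → ∃ P ∈ U, deg P = dl a + dl b) {X : Matrix Ω Ω (ZMod 2)}
    (hX : IsAlt X) : X ∈ U := by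
  have hp' : ∀ a : Ω, ∃ P ∈ U, deg P = dl a + dl o := by
    intro a
    by_cases h : a = o
    · refine ⟨0, U.zero_mem, ?_⟩
      rw [h]
      funext p
      rw [Pi.add_apply, CharTwo.add_self_eq_zero]
      simp [deg]
    · exact hp a o h
  choose P hP1 hP2 using hp'
  set Y : Matrix Ω Ω (ZMod 2) := ∑ m, deg X m • P m with hY
  have hYU : Y ∈ U := U.sum_mem (fun m _ => U.smul_mem _ (hP1 m))
  have hdY : deg Y = deg X := by
    rw [hY, deg_sum]
    funext q
    rw [Finset.sum_apply]
    have h1 : ∀ m, (deg (deg X m • P m)) q = deg X m * dl q m + deg X m * dl o q := by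
      intro m
      rw [deg_smul, hP2, Pi.smul_apply, Pi.add_apply, smul_eq_mul, mul_add, dl_comm m q]
    rw [Finset.sum_congr rfl (fun m _ => h1 m), Finset.sum_add_distrib, sum_dl_mul,
      ← Finset.sum_mul, handshake hX, zero_mul, add_zero]
  have hYalt := hU Y hYU
  have hXY : IsAlt (X + Y) := by
    refine ⟨fun i => ?_, fun i j => ?_⟩
    · rw [Matrix.add_apply, hX.1 i, hYalt.1 i, add_zero]
    · rw [Matrix.add_apply, Matrix.add_apply, hX.2 i j, hYalt.2 i j]
  have hXYE : IsEv (X + Y) := by
    intro i
    have h1 : deg (X + Y) i = 0 := by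
      rw [deg_add, hdY, Pi.add_apply, CharTwo.add_self_eq_zero]
    exact h1
  have h1 := ev_mem o ht hXY hXYE
  have h2 : X = (X + Y) + Y := by rw [add_assoc, mat2, add_zero]
  rw [h2]
  exact U.add_mem h1 hYU

theorem tri_add (hC : C4 U) {o i j k : Ω} (hi : i ≠ o) (hj : j ≠ o) (hk : k ≠ o) (hij : i ≠ j)
    (hik : i ≠ k) : tri o i j + tri o i k ∈ U := by
  have h1 : tri o i j + tri o i k = vw (dl i + dl o) (dl j + dl k) := by
    unfold tri
    rw [← vw_add_right]
    congr 1
    funext p
    simp only [Pi.add_apply]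
    have : dl j p + dl o p + (dl k p + dl o p) = dl j p + dl k p + (dl o p + dl o p) := by ring
    rw [this, CharTwo.add_self_eq_zero, add_zero]
  rw [h1]
  by_cases hjk : j = k
  · rw [hjk]
    have : dl k + dl k = 0 := by funext p; exact CharTwo.add_self_eq_zero _
    rw [this, vw_zero_right]
    exact U.zero_mem
  · exact hC i o j k hi hjk hij hik (Ne.symm hj) (Ne.symm hk)

theorem tri_tri (hC : C4 U) {o i j p q : Ω} (hi : i ≠ o) (hj : j ≠ o) (hp : p ≠ o) (hq : q ≠ o)
    (hij : i ≠ j) (hpq : p ≠ q) : tri o i j + tri o p q ∈ U := by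
  by_cases hip : i = p
  · subst hip
    exact tri_add hC hi hj hq hij hpq
  · have h1 := tri_add hC hi hj hp hij hip
    have h2 := tri_add hC hp hi hq (Ne.symm hip) hpq
    have h3 : tri o i j + tri o p q = (tri o i j + tri o i p) + (tri o p i + tri o p q) := by
      rw [tri_symm o p i]
      have : (tri o i j + tri o i p) + (tri o i p + tri o p q) =
          tri o i j + tri o p q + (tri o i p + tri o i p) := by abel
      rw [this, mat2, add_zero]
    rw [h3]
    exact U.add_mem h1 h2

theorem lam_mem (hC : C4 U) (hc : 3 ≤ Fintype.card Ω) {X : Matrix Ω Ω (ZMod 2)} (hX : IsAlt X)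
    (hE : IsEv X) (hl : lam X = 0) : X ∈ U := by
  obtain ⟨e⟩ : Nonempty (Fin 3 ↪ Ω) := Function.Embedding.nonempty_of_card_le (by
    rw [Fintype.card_fin]; exact hc)
  set o := e 0 with ho
  set p := e 1 with hp
  set q := e 2 with hq
  have hpo : p ≠ o := fun h => by have := e.injective h; exact absurd this (by decide)
  have hqo : q ≠ o := fun h => by have := e.injective h; exact absurd this (by decide)
  have hpq : p ≠ q := fun h => by have := e.injective h; exact absurd this (by decide)
  have hkey : ∀ i j : Ω, i < j → tri o i j + lam (tri o i j) • tri o p q ∈ U := by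
    intro i j hij
    by_cases hi : i = o
    · rw [hi, tri_left, lam_zero, zero_smul, add_zero]; exact U.zero_mem
    · by_cases hj : j = o
      · rw [hj, tri_right, lam_zero, zero_smul, add_zero]; exact U.zero_mem
      · rw [lam_tri hij.ne hi hj, one_smul]
        exact tri_tri hC hi hj hpo hqo hij.ne hpq
  have h1 : X + lam X • tri o p q =
      ∑ i, ∑ j, (if i < j then X i j • (tri o i j + lam (tri o i j) • tri o p q) else 0) := by
    have h2 : lam X = ∑ i, ∑ j, (if i < j then X i j * lam (tri o i j) else 0) := by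
      conv_lhs => rw [decT o hX hE]
      rw [lam_sum]
      refine Finset.sum_congr rfl (fun i _ => ?_)
      rw [lam_sum]
      refine Finset.sum_congr rfl (fun j _ => ?_)
      split_ifs
      · rw [lam_smul]
      · exact lam_zero
    have h3 : X + lam X • tri o p q = ∑ i, ∑ j, (if i < j then X i j • tri o i j else 0) +
        (∑ i, ∑ j, (if i < j then X i j * lam (tri o i j) else 0)) • tri o p q := by
      rw [← h2, ← decT o hX hE]
    rw [h3, Finset.sum_smul, ← Finset.sum_add_distrib]
    refine Finset.sum_congr rfl (fun i _ => ?_)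
    rw [Finset.sum_smul, ← Finset.sum_add_distrib]
    refine Finset.sum_congr rfl (fun j _ => ?_)
    split_ifs
    · rw [smul_add, smul_smul]
    · rw [zero_smul, add_zero]
  rw [hl, zero_smul, add_zero] at h1
  rw [h1]
  refine U.sum_mem (fun i _ => U.sum_mem (fun j _ => ?_))
  split_ifs with h
  · exact U.smul_mem _ (hkey i j h)
  · exact U.zero_mem

/-- the difference of `X` and its image under a transposition -/
theorem swap_mem (hU : ∀ X ∈ U, IsAlt X) (hs : ∀ s : Equiv.Perm Ω, ∀ X ∈ U, X.submatrix s s ∈ U)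
    {X : Matrix Ω Ω (ZMod 2)} (hX : X ∈ U) {i j : Ω} (hij : i ≠ j) :
    ∃ w : Ω → ZMod 2, w i = 0 ∧ w j = 0 ∧ (∀ l, l ≠ i → l ≠ j → w l = X i l + X j l) ∧
      ∑ l, w l = deg X i + deg X j ∧ vw (dl i + dl j) w ∈ U := by
  have hA := hU X hX
  refine ⟨fun l => if l = i ∨ l = j then 0 else X i l + X j l, by simp, by simp, ?_, ?_, ?_⟩
  · intro l h1 h2
    simp [h1, h2]
  · have h1 : ∀ l, (if l = i ∨ l = j then 0 else X i l + X j l) =
        X i l + X j l + (X i j * dl j l + X j i * dl i l) := by
      intro l
      by_cases h1 : l = i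
      · subst h1
        rw [if_pos (Or.inl rfl), dl_self, dl_ne hij, hA.1 l]
        rw [mul_zero, mul_one, zero_add]
        exact (CharTwo.add_self_eq_zero _).symm
      · by_cases h2 : l = j
        · subst h2
          rw [if_pos (Or.inr rfl), dl_self, dl_ne h1, hA.1 l]
          rw [mul_zero, mul_one, add_zero]
          exact (CharTwo.add_self_eq_zero _).symm
        · rw [if_neg (by tauto), dl_ne h1, dl_ne h2]
          ring
    rw [Finset.sum_congr rfl (fun l _ => h1 l), Finset.sum_add_distrib, Finset.sum_add_distrib,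
      Finset.sum_add_distrib, ← Finset.mul_sum, ← Finset.mul_sum, sum_dl, sum_dl, hA.2 j i,
      CharTwo.add_self_eq_zero (X i j * 1), add_zero]
    rfl
  · have h1 := U.add_mem hX (hs (Equiv.swap i j) X hX)
    have h2 : X + X.submatrix (Equiv.swap i j) (Equiv.swap i j) =
        vw (dl i + dl j) (fun l => if l = i ∨ l = j then 0 else X i l + X j l) := by
      ext a b
      rw [Matrix.add_apply, Matrix.submatrix_apply]
      simp only [vw, Matrix.of_apply, Pi.add_apply]
      by_cases ha : a = i
      · subst ha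
        rw [Equiv.swap_apply_left, dl_self, dl_ne hij]
        by_cases hb : b = a
        · subst hb
          rw [Equiv.swap_apply_left]
          simp [hA.1, dl_self, dl_ne hij]
        · by_cases hb' : b = j
          · subst hb'
            rw [Equiv.swap_apply_right, hA.2 b a, CharTwo.add_self_eq_zero]
            simp
          · rw [Equiv.swap_apply_of_ne_of_ne hb hb', dl_ne hb, dl_ne hb']
            simp [hb, hb']
      · by_cases ha' : a = j
        · subst ha'
          rw [Equiv.swap_apply_right, dl_self, dl_ne ha]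
          by_cases hb : b = i
          · subst hb
            rw [Equiv.swap_apply_left, hA.2 b a, CharTwo.add_self_eq_zero]
            simp
          · by_cases hb' : b = a
            · subst hb'
              rw [Equiv.swap_apply_right]
              simp [hA.1]
            · rw [Equiv.swap_apply_of_ne_of_ne hb hb', dl_ne hb, dl_ne hb']
              simp [hb, hb', add_comm]
        · rw [Equiv.swap_apply_of_ne_of_ne ha ha', dl_ne ha, dl_ne ha']
          by_cases hb : b = i
          · subst hb
            rw [Equiv.swap_apply_left, dl_self, dl_ne hij]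
            simp [ha, ha', hA.2 a]
          · by_cases hb' : b = j
            · subst hb'
              rw [Equiv.swap_apply_right, dl_self, dl_ne hb]
              simp [ha, ha', hA.2 a, add_comm]
            · rw [Equiv.swap_apply_of_ne_of_ne hb hb', CharTwo.add_self_eq_zero, dl_ne hb, dl_ne hb']
              simp
    rw [h2] at h1
    exact h1

theorem inj4 {i j k l : Ω} (h1 : i ≠ j) (h2 : k ≠ l) (h3 : i ≠ k) (h4 : i ≠ l) (h5 : j ≠ k)
    (h6 : j ≠ l) : Function.Injective ![i, j, k, l] := by
  intro a b h
  fin_cases a <;> fin_cases b <;> simp_all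

theorem inj2 {i j : Ω} (h1 : i ≠ j) : Function.Injective ![i, j] := by
  intro a b h
  fin_cases a <;> fin_cases b <;> simp_all

theorem c4_of (hs : ∀ s : Equiv.Perm Ω, ∀ X ∈ U, X.submatrix s s ∈ U) {i j k l : Ω} (h1 : i ≠ j)
    (h2 : k ≠ l) (h3 : i ≠ k) (h4 : i ≠ l) (h5 : j ≠ k) (h6 : j ≠ l)
    (h : vw (dl i + dl j) (dl k + dl l) ∈ U) : C4 U := by
  intro i' j' k' l' g1 g2 g3 g4 g5 g6
  obtain ⟨s, hs'⟩ := Equiv.Perm.exists_extending_pair ![i', j', k', l'] ![i, j, k, l]
    (inj4 g1 g2 g3 g4 g5 g6) (inj4 h1 h2 h3 h4 h5 h6)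
  have e1 : s i' = i := hs' 0
  have e2 : s j' = j := hs' 1
  have e3 : s k' = k := hs' 2
  have e4 : s l' = l := hs' 3
  have h7 := hs s _ h
  rw [vw_sub] at h7
  have e5 : (dl i + dl j) ∘ s = dl i' + dl j' := by
    rw [← e1, ← e2]
    funext p
    simp only [Function.comp, Pi.add_apply]
    rw [← congrFun (dl_comp i' s) p, ← congrFun (dl_comp j' s) p]
    rfl
  have e6 : (dl k + dl l) ∘ s = dl k' + dl l' := by
    rw [← e3, ← e4]
    funext p
    simp only [Function.comp, Pi.add_apply]
    rw [← congrFun (dl_comp k' s) p, ← congrFun (dl_comp l' s) p]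
    rfl
  rwa [e5, e6] at h7

theorem c4_w (hs : ∀ s : Equiv.Perm Ω, ∀ X ∈ U, X.submatrix s s ∈ U) {i j k l : Ω}
    {w : Ω → ZMod 2} (hij : i ≠ j) (hwi : w i = 0) (hwj : w j = 0) (hk : w k = 1) (hl : w l = 0)
    (hli : l ≠ i) (hlj : l ≠ j) (h : vw (dl i + dl j) w ∈ U) : C4 U := by
  have hkl : k ≠ l := by intro h; rw [h, hl] at hk; exact absurd hk (by decide)
  have hki : k ≠ i := by intro h; rw [h, hwi] at hk; exact absurd hk (by decide)
  have hkj : k ≠ j := by intro h; rw [h, hwj] at hk; exact absurd hk (by decide)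
  have h1 := U.add_mem h (hs (Equiv.swap k l) _ h)
  rw [vw_sub] at h1
  have e1 : (dl i + dl j) ∘ (Equiv.swap k l) = dl i + dl j := by
    funext p
    simp only [Function.comp, Pi.add_apply]
    by_cases hpk : p = k
    · rw [hpk, Equiv.swap_apply_left, dl_ne hli, dl_ne hlj, dl_ne hki, dl_ne hkj]
    · by_cases hpl : p = l
      · rw [hpl, Equiv.swap_apply_right, dl_ne hli, dl_ne hlj, dl_ne hki, dl_ne hkj]
      · rw [Equiv.swap_apply_of_ne_of_ne hpk hpl]
  have e2 : w + w ∘ (Equiv.swap k l) = dl k + dl l := by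
    funext p
    simp only [Function.comp, Pi.add_apply]
    by_cases hpk : p = k
    · rw [hpk, Equiv.swap_apply_left, hk, hl, dl_self, dl_ne hkl]
    · by_cases hpl : p = l
      · rw [hpl, Equiv.swap_apply_right, hk, hl, dl_self, dl_ne hkl.symm]
      · rw [Equiv.swap_apply_of_ne_of_ne hpk hpl, CharTwo.add_self_eq_zero, dl_ne hpk, dl_ne hpl,
          add_zero]
  rw [e1, ← vw_add_right, e2] at h1
  exact c4_of hs hij hkl hki.symm hli.symm hkj.symm hlj.symm h1

/-- the paths -/
theorem path_mem (hs : ∀ s : Equiv.Perm Ω, ∀ X ∈ U, X.submatrix s s ∈ U) (hC : C4 U) {i j : Ω}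
    {w : Ω → ZMod 2} (hij : i ≠ j) (hwi : w i = 0) (hwj : w j = 0) (hw : ∑ m, w m = 1)
    (h : vw (dl i + dl j) w ∈ U) (a b k : Ω) (hab : a ≠ b) (hak : a ≠ k) (hbk : b ≠ k) :
    vw (dl a + dl b) (dl k) ∈ U := by
  have hfix : ∀ k, k ≠ i → k ≠ j → vw (dl i + dl j) (dl k) ∈ U := by
    intro k hki hkj
    have h1 : dl k = w + ∑ m, w m • (dl m + dl k) := by
      funext p
      rw [Pi.add_apply, Finset.sum_apply]
      have h2 : ∀ m, (w m • (dl m + dl k)) p = w m * dl p m + w m * dl k p := by
        intro m
        rw [Pi.smul_apply, Pi.add_apply, smul_eq_mul, mul_add, dl_comm m p]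
      rw [Finset.sum_congr rfl (fun m _ => h2 m), Finset.sum_add_distrib, sum_dl_mul,
        ← Finset.sum_mul, hw, one_mul, ← add_assoc, CharTwo.add_self_eq_zero, zero_add]
    rw [h1, vw_add_right, vw_sum_right]
    refine U.add_mem h (U.sum_mem (fun m _ => ?_))
    rw [vw_smul_right]
    by_cases hm : m = i ∨ m = j
    · have : w m = 0 := by rcases hm with h | h <;> rw [h] <;> assumption
      rw [this, zero_smul]; exact U.zero_mem
    · push Not at hm
      apply U.smul_mem
      by_cases hmk : m = k
      · rw [hmk]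
        have : dl k + dl k = 0 := by funext p; exact CharTwo.add_self_eq_zero _
        rw [this, vw_zero_right]; exact U.zero_mem
      · exact hC i j m k hij hmk hm.1.symm hki.symm hm.2.symm hkj.symm
  obtain ⟨s, hs'⟩ := Equiv.Perm.exists_extending_pair ![a, b] ![i, j] (inj2 hab) (inj2 hij)
  have e1 : s a = i := hs' 0
  have e2 : s b = j := hs' 1
  have h7 := hs s _ (hfix (s k) (by rw [← e1]; exact fun h => hak (s.injective h).symm)
    (by rw [← e2]; exact fun h => hbk (s.injective h).symm))
  rw [vw_sub, dl_comp] at h7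
  have e5 : (dl i + dl j) ∘ s = dl a + dl b := by
    rw [← e1, ← e2]
    funext p
    simp only [Function.comp, Pi.add_apply]
    rw [← congrFun (dl_comp a s) p, ← congrFun (dl_comp b s) p]
    rfl
  rwa [e5] at h7

end sub

/-- Job GRAPH. -/
theorem main : Graph := by
  intro Ω _ _ hodd hcard U hU hs hbr
  have hc1 : (Fintype.card Ω : ZMod 2) = 1 := (ZMod.natCast_eq_one_iff_odd).2 hodd
  obtain ⟨e⟩ : Nonempty (Fin 4 ↪ Ω) := Function.Embedding.nonempty_of_card_le (by
    rw [Fintype.card_fin]; omega)
  set o := e 0 with ho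
  by_cases hEv : ∀ X ∈ U, IsEv X
  · by_cases h0 : ∀ X ∈ U, X = 0 ∨ X = full Ω
    · exact Or.inr (Or.inl h0)
    · right; right
      refine ⟨hEv, ?_⟩
      push Not at h0
      obtain ⟨X, hX, hX0, hXf⟩ := h0
      have hA := hU X hX
      -- two adjacent edges with different values
      have hex : ∃ i j k : Ω, i ≠ j ∧ i ≠ k ∧ j ≠ k ∧ X i k ≠ X j k := by
        by_contra hno
        push Not at hno
        have hH : ∀ i j k : Ω, i ≠ k → j ≠ k → X i k = X j k := by
          intro i j k hik hjk
          by_cases hij : i = j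
          · rw [hij]
          · exact hno i j k hij hik hjk
        have hconst : ∀ a b c d : Ω, a ≠ b → c ≠ d → X a b = X c d := by
          intro a b c d hab hcd
          by_cases hbd : d = b
          · subst hbd; exact hH a c d hab hcd
          · rw [hH a d b hab hbd, hA.2 d b]
            exact hH b c d (Ne.symm hbd) hcd
        set t := X (e 0) (e 1) with ht
        have he01 : e 0 ≠ e 1 := fun h => by have := e.injective h; exact absurd this (by decide)
        rcases Pool.Agent.Q149.ND.LM.zmod2 t with h | h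
        · apply hX0
          ext a b
          by_cases hab : a = b
          · rw [hab, hA.1]; rfl
          · rw [hconst a b (e 0) (e 1) hab he01, ← ht, h]; rfl
        · apply hXf
          ext a b
          unfold full
          rw [Matrix.of_apply]
          by_cases hab : a = b
          · rw [if_pos hab, hab, hA.1]
          · rw [if_neg hab, hconst a b (e 0) (e 1) hab he01, ← ht, h]
      obtain ⟨i, j, k, hij, hik, hjk, hne⟩ := hex
      obtain ⟨w, hwi, hwj, hw, hsum, hmem⟩ := swap_mem hU hs hX hij
      have hdi : deg X i = 0 := hEv X hX i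
      have hdj : deg X j = 0 := hEv X hX j
      rw [hdi, hdj, add_zero] at hsum
      have hwk : w k = 1 := by
        rw [hw k hik.symm hjk.symm]
        rcases Pool.Agent.Q149.ND.LM.zmod2 (X i k) with h1 | h1 <;>
          rcases Pool.Agent.Q149.ND.LM.zmod2 (X j k) with h2 | h2
        · exact absurd (h1.trans h2.symm) hne
        · rw [h1, h2]; decide
        · rw [h1, h2]; decide
        · exact absurd (h1.trans h2.symm) hne
      have hl : ∃ l, l ≠ i ∧ l ≠ j ∧ w l = 0 := by
        by_contra hno
        push Not at hno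
        have h1 : ∀ l, w l = 1 + dl i l + dl j l := by
          intro l
          by_cases h1 : l = i
          · rw [h1, hwi, dl_self, dl_ne hij]; decide
          · by_cases h2 : l = j
            · rw [h2, hwj, dl_self, dl_ne hij.symm]; decide
            · rw [dl_ne h1, dl_ne h2]
              rcases Pool.Agent.Q149.ND.LM.zmod2 (w l) with h3 | h3
              · exact absurd h3 (hno l h1 h2)
              · rw [h3]; decide
        rw [Finset.sum_congr rfl (fun l _ => h1 l), Finset.sum_add_distrib, Finset.sum_add_distrib,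
          sum_dl, sum_dl, Finset.sum_const, Finset.card_univ, nsmul_eq_mul, mul_one, hc1] at hsum
        exact absurd hsum (by decide)
      obtain ⟨l, hli, hlj, hwl⟩ := hl
      have hC : C4 U := c4_w hs hij hwi hwj hwk hwl hli hlj hmem
      intro Z hZ hZE hZl
      exact lam_mem hC (by omega) hZ hZE hZl
  · left
    push Not at hEv
    obtain ⟨X, hX, hXE⟩ := hEv
    have hA := hU X hX
    have hi : ∃ i, deg X i = 1 := by
      by_contra hno
      push Not at hno
      apply hXE
      intro i
      rcases Pool.Agent.Q149.ND.LM.zmod2 (deg X i) with h | h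
      · exact h
      · exact absurd h (hno i)
    obtain ⟨i, hdi⟩ := hi
    have hj : ∃ j, deg X j = 0 := by
      by_contra hno
      push Not at hno
      have h1 : ∀ j, deg X j = 1 := by
        intro j
        rcases Pool.Agent.Q149.ND.LM.zmod2 (deg X j) with h | h
        · exact absurd h (hno j)
        · exact h
      have h2 := handshake hA
      rw [Finset.sum_congr rfl (fun j _ => h1 j), Finset.sum_const, Finset.card_univ, nsmul_eq_mul,
        mul_one, hc1] at h2
      exact absurd h2 (by decide)
    obtain ⟨j, hdj⟩ := hj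
    have hij : i ≠ j := by intro h; rw [h, hdj] at hdi; exact absurd hdi (by decide)
    obtain ⟨w, hwi, hwj, hw, hsum, hmem⟩ := swap_mem hU hs hX hij
    rw [hdi, hdj, add_zero] at hsum
    by_cases hl : ∃ l, l ≠ i ∧ l ≠ j ∧ w l = 0
    · -- first case
      obtain ⟨l, hli, hlj, hwl⟩ := hl
      have hk : ∃ k, w k = 1 := by
        by_contra hno
        push Not at hno
        have h1 : ∀ k, w k = 0 := by
          intro k
          rcases Pool.Agent.Q149.ND.LM.zmod2 (w k) with h | h
          · exact h
          · exact absurd h (hno k)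
        rw [Finset.sum_congr rfl (fun k _ => h1 k), Finset.sum_const_zero] at hsum
        exact absurd hsum (by decide)
      obtain ⟨k, hwk⟩ := hk
      have hC : C4 U := c4_w hs hij hwi hwj hwk hwl hli hlj hmem
      have hpath := path_mem hs hC hij hwi hwj hsum hmem
      intro Z hZ
      refine all_mem hU o ?_ ?_ hZ
      · intro a b hab hao hbo
        -- the triangle `a b o`
        obtain ⟨k', hk1, hk2, hk3⟩ : ∃ k', a ≠ k' ∧ b ≠ k' ∧ o ≠ k' := by
          by_contra hno
          push Not at hno
          have h1 : (Finset.univ : Finset Ω) ⊆ {a, b, o} := by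
            intro x _
            by_contra hx
            simp only [Finset.mem_insert, Finset.mem_singleton, not_or] at hx
            exact hx.2.2 (hno x (Ne.symm hx.1) (Ne.symm hx.2.1)).symm
          have h2 := Finset.card_le_card h1
          rw [Finset.card_univ] at h2
          have h3 : ({a, b, o} : Finset Ω).card ≤ 3 := Finset.card_le_three
          omega
        have g1 := hpath a o k' hao hk1 hk3
        have g2 := hpath b o k' hbo hk2 hk3
        have g3 := hbr _ g1 _ g2
        have hsw : vw (dl b + dl o) (dl k') = vw (dl k') (dl b + dl o) := vw_symm _ _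
        rw [hsw, vw_comm] at g3
        have f1 : ∑ m, dl k' m * dl k' m = 1 := by rw [sum_dl_mul, dl_self]
        have f2 : ∑ m, dl k' m * (dl b + dl o) m = 0 := by
          simp only [mul_comm (dl k' _)]
          rw [sum_dl_mul, Pi.add_apply, dl_ne (Ne.symm hk2), dl_ne (Ne.symm hk3), add_zero]
        have f3 : ∑ m, (dl a + dl o) m * dl k' m = 0 := by
          rw [sum_dl_mul, Pi.add_apply, dl_ne (Ne.symm hk1), dl_ne (Ne.symm hk3), add_zero]
        rw [f1, f2, f3, one_smul, zero_smul, zero_smul, vw_self, smul_zero, add_zero, add_zero,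
          add_zero] at g3
        exact g3
      · intro a b hab
        obtain ⟨k', hk1, hk2⟩ : ∃ k', a ≠ k' ∧ b ≠ k' := by
          by_contra hno
          push Not at hno
          have h1 : (Finset.univ : Finset Ω) ⊆ {a, b} := by
            intro x _
            by_contra hx
            simp only [Finset.mem_insert, Finset.mem_singleton, not_or] at hx
            exact hx.2 (hno x (Ne.symm hx.1)).symm
          have h2 := Finset.card_le_card h1
          rw [Finset.card_univ] at h2
          have h3 : ({a, b} : Finset Ω).card ≤ 2 := Finset.card_le_two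
          omega
        refine ⟨_, hpath a b k' hab hk1 hk2, ?_⟩
        rw [deg_vw, sum_dl, one_smul]
        have : ∑ m, (dl a + dl b) m = 0 := by
          simp only [Pi.add_apply]
          rw [Finset.sum_add_distrib, sum_dl, sum_dl]
          decide
        rw [this, zero_smul, add_zero]
    · -- second case
      push Not at hl
      have hw1 : w = (fun _ => 1) + (dl i + dl j) := by
        funext l
        rw [Pi.add_apply, Pi.add_apply]
        by_cases h1 : l = i
        · rw [h1, hwi, dl_self, dl_ne hij]; decide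
        · by_cases h2 : l = j
          · rw [h2, hwj, dl_self, dl_ne hij.symm]; decide
          · rw [dl_ne h1, dl_ne h2]
            rcases Pool.Agent.Q149.ND.LM.zmod2 (w l) with h3 | h3
            · exact absurd h3 (hl l h1 h2)
            · rw [h3]; decide
      rw [hw1, vw_add_right, vw_self, add_zero] at hmem
      have hall : ∀ a b : Ω, a ≠ b → vw (dl a + dl b) (fun _ => 1) ∈ U := by
        intro a b hab
        obtain ⟨s, hs'⟩ := Equiv.Perm.exists_extending_pair ![a, b] ![i, j] (inj2 hab) (inj2 hij)
        have e1 : s a = i := hs' 0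
        have e2 : s b = j := hs' 1
        have h7 := hs s _ hmem
        rw [vw_sub] at h7
        have e5 : (dl i + dl j) ∘ s = dl a + dl b := by
          rw [← e1, ← e2]
          funext p
          simp only [Function.comp, Pi.add_apply]
          rw [← congrFun (dl_comp a s) p, ← congrFun (dl_comp b s) p]
          rfl
        rw [e5] at h7
        exact h7
      have h11 : ∑ _m : Ω, (1 : ZMod 2) * 1 = 1 := by
        rw [Finset.sum_const, Finset.card_univ, nsmul_eq_mul, mul_one, mul_one, hc1]
      intro Z hZ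
      refine all_mem hU o ?_ ?_ hZ
      · intro a b hab hao hbo
        have g3 := hbr _ (hall a o hao) _ (hall b o hbo)
        rw [vw_comm] at g3
        have f0 : ∀ x y : Ω, ∑ m, (dl x + dl y) m = 0 := by
          intro x y
          simp only [Pi.add_apply]
          rw [Finset.sum_add_distrib, sum_dl, sum_dl]
          decide
        have f1 : ∑ m, (1 : ZMod 2) * (dl b + dl o) m = 0 := by
          simp only [one_mul]
          exact f0 b o
        have f3 : ∑ m, (dl a + dl o) m * (1 : ZMod 2) = 0 := by
          simp only [mul_one]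
          exact f0 a o
        rw [f1, h11, f3, one_smul, zero_smul, zero_smul, vw_self, smul_zero, add_zero, add_zero,
          zero_add] at g3
        exact g3
      · intro a b hab
        refine ⟨_, hall a b hab, ?_⟩
        rw [deg_vw]
        have f0 : ∑ m, (dl a + dl b) m = 0 := by
          simp only [Pi.add_apply]
          rw [Finset.sum_add_distrib, sum_dl, sum_dl]
          decide
        have f1 : ∑ _m : Ω, (1 : ZMod 2) = 1 := by
          rw [Finset.sum_const, Finset.card_univ, nsmul_eq_mul, mul_one, hc1]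
        rw [f0, f1, one_smul, zero_smul, add_zero]

end Pool.Agent.Q149.ND.GR
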