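import Pool.Agent.Q45.ND.Stm

/-!
# Project ND, job LAM: a saturated Lie algebra contains the lift of a graph with an odd number of edges
-/

set_option autoImplicit false
set_option linter.unusedSectionVars false
set_option linter.unusedSimpArgs false

open Module

namespace Pool.Agent.Q149.ND.LM

open Pool.Agent.Q45.OI (InO InSo)
open Pool.Agent.Q45.ND

section mat

variable {Ω : Type} [Fintype Ω] [LinearOrder Ω]

/-- the sum over the ordered pairs -/
theorem lam_sym (Z : Ω → Ω → ZMod 2) :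
    ∑ i, ∑ j, (if i < j then Z i j + Z j i else 0) = ∑ i, ∑ j, Z i j + ∑ i, Z i i := by
  have h1 : ∀ i j, Z i j = (if i < j then Z i j else 0) + (if j < i then Z i j else 0) +
      (if i = j then Z i j else 0) := by
    intro i j
    rcases lt_trichotomy i j with h | h | h
    · simp [h, h.not_gt, h.ne]
    · subst h; simp
    · simp [h, h.not_gt, h.ne']
  have h2 : ∑ i, ∑ j, Z i j = ∑ i, ∑ j, (if i < j then Z i j else 0) +
      ∑ i, ∑ j, (if j < i then Z i j else 0) + ∑ i, ∑ j, (if i = j then Z i j else 0) := by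
    rw [← Finset.sum_add_distrib, ← Finset.sum_add_distrib]
    refine Finset.sum_congr rfl (fun i _ => ?_)
    rw [← Finset.sum_add_distrib, ← Finset.sum_add_distrib]
    exact Finset.sum_congr rfl (fun j _ => h1 i j)
  have h3 : ∑ i, ∑ j, (if j < i then Z i j else 0) = ∑ i, ∑ j, (if i < j then Z j i else 0) :=
    Finset.sum_comm
  have h4 : ∑ i, ∑ j, (if i = j then Z i j else 0) = ∑ i, Z i i := by
    refine Finset.sum_congr rfl (fun i _ => ?_)
    simp
  have h5 : ∑ i, ∑ j, (if i < j then Z i j + Z j i else 0) =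
      ∑ i, ∑ j, (if i < j then Z i j else 0) + ∑ i, ∑ j, (if i < j then Z j i else 0) := by
    rw [← Finset.sum_add_distrib]
    refine Finset.sum_congr rfl (fun i _ => ?_)
    rw [← Finset.sum_add_distrib]
    refine Finset.sum_congr rfl (fun j _ => ?_)
    split_ifs <;> simp
  rw [h5, h2, h3, h4, add_assoc, CharTwo.add_self_eq_zero, add_zero]

theorem lam_add (X Y : Matrix Ω Ω (ZMod 2)) : lam (X + Y) = lam X + lam Y := by
  unfold lam
  rw [← Finset.sum_add_distrib]
  refine Finset.sum_congr rfl (fun i _ => ?_)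
  rw [← Finset.sum_add_distrib]
  refine Finset.sum_congr rfl (fun j _ => ?_)
  split_ifs <;> simp

theorem lam_smul (c : ZMod 2) (X : Matrix Ω Ω (ZMod 2)) : lam (c • X) = c * lam X := by
  unfold lam
  rw [Finset.mul_sum]
  refine Finset.sum_congr rfl (fun i _ => ?_)
  rw [Finset.mul_sum]
  refine Finset.sum_congr rfl (fun j _ => ?_)
  split_ifs <;> simp

theorem lam_sub (X Y : Matrix Ω Ω (ZMod 2)) : lam (X - Y) = lam X + lam Y := by
  have : X - Y = X + (-1 : ZMod 2) • Y := by rw [neg_smul, one_smul, sub_eq_add_neg]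
  rw [this, lam_add, lam_smul]
  congr 1
  have : (-1 : ZMod 2) = 1 := by decide
  rw [this, one_mul]

theorem lam_comm {X Y : Matrix Ω Ω (ZMod 2)} (hY : IsAlt Y) (hX : IsAlt X) (hE : IsEv X) :
    lam (Y * X - X * Y) = 0 := by
  have h1 : ∀ i j, (Y * X - X * Y) i j = (Y * X) i j + (Y * X) j i := by
    intro i j
    rw [Matrix.sub_apply]
    have h2 : (X * Y) i j = (Y * X) j i := by
      rw [Matrix.mul_apply, Matrix.mul_apply]
      refine Finset.sum_congr rfl (fun k _ => ?_)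
      rw [hX.2 i k, hY.2 k j, mul_comm]
    rw [h2, CharTwo.sub_eq_add]
  unfold lam
  simp only [h1]
  rw [lam_sym (fun i j => (Y * X) i j)]
  have h3 : ∑ i, ∑ j, (Y * X) i j = 0 := by
    refine Finset.sum_eq_zero (fun i _ => ?_)
    simp only [Matrix.mul_apply]
    rw [Finset.sum_comm]
    refine Finset.sum_eq_zero (fun k _ => ?_)
    rw [← Finset.mul_sum, hE k, mul_zero]
  have h4 : ∑ i, (Y * X) i i = 0 := by
    simp only [Matrix.mul_apply]
    have h5 := lam_sym (fun i k => Y i k * X k i)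
    have h6 : ∑ i, ∑ j, (if i < j then Y i j * X j i + Y j i * X i j else 0) = 0 := by
      refine Finset.sum_eq_zero (fun i _ => Finset.sum_eq_zero (fun j _ => ?_))
      split_ifs
      · rw [hY.2 j i, hX.2 i j, CharTwo.add_self_eq_zero]
      · rfl
    rw [h6] at h5
    have h7 : ∑ i, Y i i * X i i = 0 :=
      Finset.sum_eq_zero (fun i _ => by rw [hY.1 i, zero_mul])
    rw [h7, add_zero] at h5
    exact h5.symm
  rw [h3, h4, add_zero]

/-- the graph `u v^T + v u^T` -/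
def vw (u v : Ω → ZMod 2) : Matrix Ω Ω (ZMod 2) := Matrix.of fun p q => u p * v q + v p * u q

theorem vw_alt (u v : Ω → ZMod 2) : IsAlt (vw u v) := by
  constructor
  · intro i
    unfold vw
    rw [Matrix.of_apply, mul_comm, CharTwo.add_self_eq_zero]
  · intro i j
    unfold vw
    rw [Matrix.of_apply, Matrix.of_apply]
    ring

theorem vw_ev {u v : Ω → ZMod 2} (hu : ∑ i, u i = 0) (hv : ∑ i, v i = 0) : IsEv (vw u v) := by
  intro i
  unfold vw
  simp only [Matrix.of_apply]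
  rw [Finset.sum_add_distrib, ← Finset.mul_sum, ← Finset.mul_sum, hu, hv, mul_zero, mul_zero, add_zero]

theorem lam_vw {u v : Ω → ZMod 2} (hu : ∑ i, u i = 0) : lam (vw u v) = ∑ i, u i * v i := by
  unfold lam vw
  simp only [Matrix.of_apply]
  have h1 := lam_sym (fun i j => u i * v j)
  have h2 : ∑ i, ∑ j, u i * v j = 0 := by
    rw [← Finset.sum_mul_sum, hu, zero_mul]
  rw [h2, zero_add] at h1
  rw [← h1]
  refine Finset.sum_congr rfl (fun i _ => Finset.sum_congr rfl (fun j _ => ?_))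
  rw [mul_comm (v i)]

end mat

section

variable {Ω M : Type} [Fintype Ω] [LinearOrder Ω] [AddCommGroup M] [Module ℤ_[2] M]

theorem two_dvd {c : ℤ_[2]} (h : PadicInt.toZMod c = 0) : ∃ c', c = 2 * c' := by
  have h1 : c ∈ RingHom.ker (PadicInt.toZMod (p := 2)) := h
  rw [PadicInt.ker_toZMod, PadicInt.maximalIdeal_eq_span_p, Ideal.mem_span_singleton] at h1
  obtain ⟨c', hc⟩ := h1
  exact ⟨c', by rw [hc]; norm_num⟩

theorem zmod2 (a : ZMod 2) : a = 0 ∨ a = 1 := by
  revert a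
  decide

theorem kap_smul {κ : M →+ (Ω → ZMod 2)} (hker : ∀ m, κ m = 0 ↔ ∃ m', m = (2 : ℤ_[2]) • m')
    (c : ℤ_[2]) (m : M) : κ (c • m) = PadicInt.toZMod c • κ m := by
  rcases zmod2 (PadicInt.toZMod c) with h | h
  · obtain ⟨c', hc⟩ := two_dvd h
    rw [h, zero_smul]
    exact (hker _).2 ⟨c' • m, by rw [smul_smul, ← hc]⟩
  · have h1 : PadicInt.toZMod (c - 1) = 0 := by rw [map_sub, h, map_one, sub_self]
    obtain ⟨c', hc⟩ := two_dvd h1
    rw [h, one_smul]
    have h2 : κ ((c - 1) • m) = 0 := (hker _).2 ⟨c' • m, by rw [smul_smul, ← hc]⟩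
    have h3 : c • m = (c - 1) • m + m := by rw [sub_smul, one_smul]; abel
    rw [h3, map_add, h2, zero_add]

variable {κ : M →+ (Ω → ZMod 2)} {R : End ℤ_[2] M →+* Matrix Ω Ω (ZMod 2)}
  {B : M →ₗ[ℤ_[2]] M →ₗ[ℤ_[2]] ℤ_[2]}

theorem sum_mul_single (f : Ω → ZMod 2) (j : Ω) :
    ∑ m, f m * (Pi.single j 1 : Ω → ZMod 2) m = f j := by
  rw [Finset.sum_eq_single j]
  · rw [Pi.single_eq_same, mul_one]
  · intro b _ hb
    rw [Pi.single_eq_of_ne hb, mul_zero]
  · intro h
    exact absurd (Finset.mem_univ j) h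

/-- the columns of the reduction -/
theorem R_col (hS : Setup κ R B) (A : End ℤ_[2] M) {x : M} {i : Ω} (hx : κ x = Pi.single i 1)
    (p : Ω) : R A p i = κ (A x) p := by
  rw [hS.red, hx, Matrix.mulVec_single_one]
  rfl

theorem R_ext (hS : Setup κ R B) {A : End ℤ_[2] M} {X : Matrix Ω Ω (ZMod 2)}
    (h : ∀ m, κ (A m) = X.mulVec (κ m)) : R A = X := by
  ext p i
  obtain ⟨x, hx⟩ := hS.surj (Pi.single i 1)
  rw [R_col hS A hx, h, hx, Matrix.mulVec_single_one]
  rfl

theorem R_smul (hS : Setup κ R B) (c : ℤ_[2]) (A : End ℤ_[2] M) :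
    R (c • A) = PadicInt.toZMod c • R A := by
  apply R_ext hS
  intro m
  rw [LinearMap.smul_apply, kap_smul hS.ker, hS.red, Matrix.smul_mulVec]

theorem R_alt (hS : Setup κ R B) {A : End ℤ_[2] M} (hA : InSo B A) : IsAlt (R A) := by
  constructor
  · intro i
    obtain ⟨x, hx⟩ := hS.surj (Pi.single i 1)
    have h1 := hA x x
    rw [hS.symm x (A x)] at h1
    have h2 : B (A x) x = 0 := by
      have : (2 : ℤ_[2]) * B (A x) x = 0 := by rw [two_mul]; exact h1
      rcases mul_eq_zero.1 this with h | h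
      · exact absurd h two_ne_zero
      · exact h
    have h3 := hS.dot (A x) x
    rw [h2, map_zero, hx] at h3
    rw [R_col hS A hx i]
    rw [sum_mul_single] at h3
    exact h3.symm
  · intro i j
    obtain ⟨x, hx⟩ := hS.surj (Pi.single i 1)
    obtain ⟨y, hy⟩ := hS.surj (Pi.single j 1)
    have h1 := congrArg PadicInt.toZMod (hA x y)
    rw [map_add, map_zero, hS.dot, hS.dot, hx, hy] at h1
    rw [R_col hS A hx j, R_col hS A hy i]
    have h2 : ∑ m, κ (A x) m * (Pi.single j 1 : Ω → ZMod 2) m = κ (A x) j := sum_mul_single _ _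
    have h3 : ∑ m, (Pi.single i 1 : Ω → ZMod 2) m * κ (A y) m = κ (A y) i := by
      simp only [mul_comm ((Pi.single i 1 : Ω → ZMod 2) _)]
      exact sum_mul_single _ _
    rw [h2, h3] at h1
    exact (CharTwo.add_eq_zero.1 h1).symm

/-- the skew endomorphism `a ∧ b` -/
noncomputable def w (B : M →ₗ[ℤ_[2]] M →ₗ[ℤ_[2]] ℤ_[2]) (a b : M) : End ℤ_[2] M :=
  (B a).smulRight b - (B b).smulRight a

theorem w_apply (a b m : M) : w B a b m = B a m • b - B b m • a := rfl

theorem w_skew (hS : Setup κ R B) (a b : M) : InSo B (w B a b) := by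
  intro x y
  rw [w_apply, w_apply]
  simp only [map_sub, map_smul, LinearMap.sub_apply, LinearMap.smul_apply, smul_eq_mul]
  rw [hS.symm x a, hS.symm x b]
  ring

theorem w_comm_id (hS : Setup κ R B) (a b c d : M) :
    w B a b * w B c d - w B c d * w B a b =
      -(B b c • w B a d) + B a c • w B b d + B b d • w B a c - B a d • w B b c := by
  ext m
  simp only [LinearMap.sub_apply, LinearMap.add_apply, LinearMap.neg_apply, LinearMap.smul_apply,
    Module.End.mul_apply, w_apply, map_sub, map_smul, smul_eq_mul]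
  rw [hS.symm c b, hS.symm c a, hS.symm d b, hS.symm d a]
  module

theorem w_red (hS : Setup κ R B) (a b : M) : R (w B a b) = vw (κ a) (κ b) := by
  apply R_ext hS
  intro m
  rw [w_apply, map_sub, kap_smul hS.ker, kap_smul hS.ker, hS.dot, hS.dot]
  funext p
  rw [Pi.sub_apply, Pi.smul_apply, Pi.smul_apply, CharTwo.sub_eq_add, smul_eq_mul, smul_eq_mul]
  unfold vw Matrix.mulVec dotProduct
  simp only [Matrix.of_apply]
  rw [Finset.sum_mul, Finset.sum_mul, ← Finset.sum_add_distrib]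
  refine Finset.sum_congr rfl (fun i _ => ?_)
  ring

end

/-- Job LAM. -/
theorem main : Lam := by
  intro Ω _ _ hcard M _ _ _ _ κ R B hS L hsat hso hbr hlift
  obtain ⟨e⟩ : Nonempty (Fin 7 ↪ Ω) := Function.Embedding.nonempty_of_card_le (by
    rw [Fintype.card_fin]; exact hcard)
  -- the vectors
  set dl : Fin 7 → Ω → ZMod 2 := fun i => Pi.single (e i) 1 with hdl
  have hdot : ∀ i j, ∑ p, dl i p * dl j p = if i = j then 1 else 0 := by
    intro i j
    simp only [hdl]
    rw [sum_mul_single]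
    by_cases h : i = j
    · subst h; simp
    · have : e j ≠ e i := fun h' => h (e.injective h').symm
      rw [if_neg h, Pi.single_eq_of_ne this]
  have hsum : ∀ i, ∑ p, dl i p = 1 := by
    intro i
    simp [hdl]
  have hpair : ∀ i j, ∑ p, (dl i + dl j) p = 0 := by
    intro i j
    simp only [Pi.add_apply]
    rw [Finset.sum_add_distrib, hsum, hsum]
    decide
  have hdd : ∀ i j k l, ∑ p, (dl i + dl j) p * (dl k + dl l) p =
      (if i = k then 1 else 0) + (if i = l then 1 else 0) + (if j = k then 1 else 0) +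
        (if j = l then 1 else 0) := by
    intro i j k l
    rw [← hdot i k, ← hdot i l, ← hdot j k, ← hdot j l, ← Finset.sum_add_distrib,
      ← Finset.sum_add_distrib, ← Finset.sum_add_distrib]
    refine Finset.sum_congr rfl (fun p _ => ?_)
    simp only [Pi.add_apply]
    ring
  obtain ⟨e1, he1⟩ := hS.surj (dl 0 + dl 1)
  obtain ⟨f1, hf1⟩ := hS.surj (dl 1 + dl 2)
  obtain ⟨e2, he2⟩ := hS.surj (dl 3 + dl 4)
  obtain ⟨f2, hf2⟩ := hS.surj (dl 4 + dl 5)
  have de1f1 : ∑ p, κ e1 p * κ f1 p = 1 := by rw [he1, hf1, hdd]; decide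
  have de2f2 : ∑ p, κ e2 p * κ f2 p = 1 := by rw [he2, hf2, hdd]; decide
  have de1e2 : ∑ p, κ e1 p * κ e2 p = 0 := by rw [he1, he2, hdd]; decide
  have de1f2 : ∑ p, κ e1 p * κ f2 p = 0 := by rw [he1, hf2, hdd]; decide
  have de2f1 : ∑ p, κ e2 p * κ f1 p = 0 := by rw [he2, hf1, hdd]; decide
  have df1f2 : ∑ p, κ f1 p * κ f2 p = 0 := by rw [hf1, hf2, hdd]; decide
  have df2f1 : ∑ p, κ f2 p * κ f1 p = 0 := by rw [hf1, hf2, hdd]; decide
  have df1e2 : ∑ p, κ f1 p * κ e2 p = 0 := by rw [hf1, he2, hdd]; decide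
  have se1 : ∑ p, κ e1 p = 0 := by rw [he1]; exact hpair _ _
  have sf1 : ∑ p, κ f1 p = 0 := by rw [hf1]; exact hpair _ _
  have se2 : ∑ p, κ e2 p = 0 := by rw [he2]; exact hpair _ _
  have sf2 : ∑ p, κ f2 p = 0 := by rw [hf2]; exact hpair _ _
  -- lifts in `L`
  have hgen : ∀ a b : M, ∑ p, κ a p = 0 → ∑ p, κ b p = 0 → ∑ p, κ a p * κ b p = 0 →
      ∃ A' ∈ L, ∃ C, A' = w B a b + (2 : ℤ_[2]) • C ∧ InSo B C := by
    intro a b ha hb hab
    obtain ⟨A', hA', hR⟩ := hlift (vw (κ a) (κ b)) (vw_alt _ _) (vw_ev ha hb)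
      (by rw [lam_vw ha]; exact hab)
    obtain ⟨C, hC⟩ := (hS.rker (A' - w B a b)).1 (by rw [map_sub, hR, w_red hS, sub_self])
    refine ⟨A', hA', C, by rw [← hC]; abel, ?_⟩
    intro x y
    have h1 := hso A' hA' x y
    have h2 := w_skew hS a b x y
    have h3 : ∀ m, (2 : ℤ_[2]) • C m = A' m - w B a b m := by
      intro m
      have := congrArg (fun t : End ℤ_[2] M => t m) hC
      simpa using this.symm
    have h4 : (2 : ℤ_[2]) * (B (C x) y + B x (C y)) = 0 := by
      have g1 : (2 : ℤ_[2]) * B (C x) y = B (A' x) y - B (w B a b x) y := by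
        have : (2 : ℤ_[2]) * B (C x) y = B ((2 : ℤ_[2]) • C x) y := by
          rw [map_smul, LinearMap.smul_apply, smul_eq_mul]
        rw [this, h3, map_sub, LinearMap.sub_apply]
      have g2 : (2 : ℤ_[2]) * B x (C y) = B x (A' y) - B x (w B a b y) := by
        have : (2 : ℤ_[2]) * B x (C y) = B x ((2 : ℤ_[2]) • C y) := by
          rw [map_smul, smul_eq_mul]
        rw [this, h3, map_sub]
      rw [mul_add, g1, g2]
      linear_combination h1 - h2
    rcases mul_eq_zero.1 h4 with h | h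
    · exact absurd h two_ne_zero
    · exact h
  obtain ⟨A1, hA1, B1, hB1, sB1⟩ := hgen e1 e2 se1 se2 de1e2
  obtain ⟨A2, hA2, B2, hB2, sB2⟩ := hgen f1 f2 sf1 sf2 df1f2
  obtain ⟨A3, hA3, B3, hB3, sB3⟩ := hgen e1 f2 se1 sf2 de1f2
  obtain ⟨A4, hA4, B4, hB4, sB4⟩ := hgen f1 e2 sf1 se2 df1e2
  -- the even coefficients
  have hev : ∀ a b : M, ∑ p, κ a p * κ b p = 0 → ∃ c, B a b = 2 * c := by
    intro a b hab
    exact two_dvd (by rw [hS.dot]; exact hab)
  obtain ⟨α, hα⟩ := hev e2 f1 de2f1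
  obtain ⟨β, hβ⟩ := hev e1 f2 de1f2
  obtain ⟨γ, hγ⟩ := hev f2 f1 df2f1
  obtain ⟨δ, hδ⟩ := hev e1 e2 de1e2
  set D : End ℤ_[2] M := B e2 f2 • w B e1 f1 - α • w B e1 f2 - β • w B e2 f1 - γ • w B e1 e2 -
    δ • w B f2 f1 with hD
  have hDsum : (w B e1 e2 * w B f1 f2 - w B f1 f2 * w B e1 e2) +
      (w B e1 f2 * w B f1 e2 - w B f1 e2 * w B e1 f2) = (2 : ℤ_[2]) • D := by
    rw [w_comm_id hS, w_comm_id hS, hD, hS.symm f2 e2, hα, hβ, hγ, hδ]
    have hanti : w B f2 e2 = - w B e2 f2 := by unfold w; abel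
    rw [hanti]
    module
  set D' : End ℤ_[2] M := D + ((B1 * w B f1 f2 - w B f1 f2 * B1) + (w B e1 e2 * B2 - B2 * w B e1 e2)) +
    ((B3 * w B f1 e2 - w B f1 e2 * B3) + (w B e1 f2 * B4 - B4 * w B e1 f2)) +
    (2 : ℤ_[2]) • ((B1 * B2 - B2 * B1) + (B3 * B4 - B4 * B3)) with hD'
  have hsum' : (A1 * A2 - A2 * A1) + (A3 * A4 - A4 * A3) = (2 : ℤ_[2]) • D' := by
    have e5 : (2 : ℤ_[2]) • D' = (2 : ℤ_[2]) • D +
        (2 : ℤ_[2]) • (((B1 * w B f1 f2 - w B f1 f2 * B1) + (w B e1 e2 * B2 - B2 * w B e1 e2)) +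
        ((B3 * w B f1 e2 - w B f1 e2 * B3) + (w B e1 f2 * B4 - B4 * w B e1 f2)) +
        (2 : ℤ_[2]) • ((B1 * B2 - B2 * B1) + (B3 * B4 - B4 * B3))) := by
      rw [hD']
      module
    rw [e5, ← hDsum, hB1, hB2, hB3, hB4]
    simp only [add_mul, mul_add, smul_mul_assoc, mul_smul_comm]
    module
  have hD'L : D' ∈ L := by
    apply hsat
    rw [← hsum']
    exact L.add_mem (hbr _ hA1 _ hA2) (hbr _ hA3 _ hA4)
  refine ⟨D', hD'L, ?_⟩
  have hlamD : lam (R D) = 1 := by
    rw [hD]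
    simp only [map_sub, lam_sub, R_smul hS, lam_smul, w_red hS]
    rw [lam_vw se1, lam_vw se1, lam_vw se2, lam_vw se1, lam_vw sf2, de1f1, de1f2, de2f1, de1e2, df2f1,
      hS.dot, de2f2]
    simp
  have hk : ∀ (C : End ℤ_[2] M) (a b : M), InSo B C → ∑ p, κ a p = 0 → ∑ p, κ b p = 0 →
      lam (R (C * w B a b - w B a b * C)) = 0 ∧ lam (R (w B a b * C - C * w B a b)) = 0 := by
    intro C a b hC ha hb
    have h1 : lam (R (C * w B a b - w B a b * C)) = 0 := by
      rw [map_sub, map_mul, map_mul]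
      refine lam_comm (R_alt hS hC) ?_ ?_
      · rw [w_red hS]; exact vw_alt _ _
      · rw [w_red hS]; exact vw_ev ha hb
    refine ⟨h1, ?_⟩
    have h2 : w B a b * C - C * w B a b = -(C * w B a b - w B a b * C) := by abel
    rw [h2, map_neg]
    have h3 : -(R (C * w B a b - w B a b * C)) = (-1 : ZMod 2) • R (C * w B a b - w B a b * C) := by
      rw [neg_smul, one_smul]
    rw [h3, lam_smul, h1, mul_zero]
  have h2z : PadicInt.toZMod (2 : ℤ_[2]) = 0 := by
    rw [map_ofNat]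
    decide
  rw [hD', map_add, map_add, map_add, map_add, map_add, R_smul hS, h2z, zero_smul, add_zero, lam_add,
    lam_add, lam_add, lam_add, hlamD, (hk B1 f1 f2 sB1 sf1 sf2).1, (hk B2 e1 e2 sB2 se1 se2).2,
    (hk B3 f1 e2 sB3 sf1 se2).1, (hk B4 e1 f2 sB4 se1 sf2).2]
  simp

end Pool.Agent.Q149.ND.LM
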