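import Pool.Agent.Q45.ND.Stm

/-!
# Project ND, job LINE: there is no stable line of skew endomorphisms reducing to the complete graph
-/

set_option autoImplicit false

open Module

namespace Pool.Agent.Q149.ND

open Pool.Agent.Q45.OI (InO InSo)
open Pool.Agent.Q45.ND

section

variable {Ω M : Type} [Fintype Ω] [DecidableEq Ω] [AddCommGroup M] [Module ℤ_[2] M]

theorem two_inj {M : Type} [AddCommGroup M] [Module ℤ_[2] M] [Module.Free ℤ_[2] M] {x y : M}
    (h : (2 : ℤ_[2]) • x = (2 : ℤ_[2]) • y) : x = y := by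
  have h2 : (2 : ℤ_[2]) ≠ 0 := two_ne_zero
  exact smul_right_injective M h2 h

/-- the complete graph is idempotent -/
theorem full_sum (hodd : Odd (Fintype.card Ω)) (a b : Ω) :
    ∑ m, full Ω m a * full Ω m b = if a = b then 0 else 1 := by
  have hc : (Fintype.card Ω : ZMod 2) = 1 := (ZMod.natCast_eq_one_iff_odd).2 hodd
  have h1 : ∀ m, full Ω m a * full Ω m b =
      1 + (if m = a then 1 else 0) + (if m = b then 1 else 0) +
        (if m = a then (if a = b then 1 else 0) else 0) := by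
    intro m
    unfold full
    rw [Matrix.of_apply, Matrix.of_apply]
    by_cases h1 : m = a
    · subst h1
      by_cases h2 : m = b
      · simp only [h2, if_true]
        decide
      · simp only [h2, if_true, if_false]
        decide
    · by_cases h2 : m = b
      · simp only [h1, h2, if_true, if_false]
        have : b ≠ a := fun h => h1 (h2.trans h)
        simp only [this, if_false]
        decide
      · simp only [h1, h2, if_false]
        decide
  rw [Finset.sum_congr rfl (fun m _ => h1 m)]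
  rw [Finset.sum_add_distrib, Finset.sum_add_distrib, Finset.sum_add_distrib, Finset.sum_const,
    Finset.card_univ, nsmul_eq_mul, mul_one, hc]
  simp only [Finset.sum_ite_eq', Finset.mem_univ, if_true]
  by_cases h : a = b
  · simp only [h, if_true]; decide
  · simp only [h, if_false]; decide

theorem full_mul (hodd : Odd (Fintype.card Ω)) : full Ω * full Ω = full Ω := by
  ext a b
  rw [Matrix.mul_apply]
  have h1 : ∀ m, full Ω a m = full Ω m a := by
    intro m
    unfold full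
    rw [Matrix.of_apply, Matrix.of_apply]
    simp only [eq_comm]
  simp only [h1]
  rw [full_sum hodd a b]
  unfold full
  rw [Matrix.of_apply]
  by_cases h : a = b
  · simp only [h, if_true]
  · simp only [h, Ne.symm h, if_false]

theorem s_inv (s : Equiv.Perm Ω) (i : Ω) : s (s⁻¹ i) = i := s.apply_symm_apply i

theorem inv_s (s : Equiv.Perm Ω) (i : Ω) : s⁻¹ (s i) = i := s.symm_apply_apply i

/-- `g` lifts the permutation `s` -/
def Lift (κ : M →+ (Ω → ZMod 2)) (g : (End ℤ_[2] M)ˣ) (s : Equiv.Perm Ω) : Prop :=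
  ∀ m i, κ ((g : End ℤ_[2] M) m) (s i) = κ m i

theorem Lift.mul {κ : M →+ (Ω → ZMod 2)} {g g' : (End ℤ_[2] M)ˣ} {s s' : Equiv.Perm Ω}
    (h : Lift κ g s) (h' : Lift κ g' s') : Lift κ (g * g') (s * s') := by
  intro m i
  have h1 := h ((g' : End ℤ_[2] M) m) (s' i)
  have h2 := h' m i
  rw [Units.val_mul, Module.End.mul_apply, Equiv.Perm.mul_apply, h1, h2]

theorem unit_inv_apply (g : (End ℤ_[2] M)ˣ) (m : M) :
    (g : End ℤ_[2] M) (((g⁻¹ : (End ℤ_[2] M)ˣ) : End ℤ_[2] M) m) = m := by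
  rw [← Module.End.mul_apply, Units.mul_inv]
  rfl

theorem Lift.inv {κ : M →+ (Ω → ZMod 2)} {g : (End ℤ_[2] M)ˣ} {s : Equiv.Perm Ω}
    (h : Lift κ g s) : Lift κ g⁻¹ s⁻¹ := by
  intro m i
  have h1 := h (((g⁻¹ : (End ℤ_[2] M)ˣ) : End ℤ_[2] M) m) (s⁻¹ i)
  rw [unit_inv_apply] at h1
  rw [← h1, s_inv]

theorem Lift.single {κ : M →+ (Ω → ZMod 2)} {g : (End ℤ_[2] M)ˣ} {s : Equiv.Perm Ω}
    (h : Lift κ g s) {x : M} {i : Ω} (hx : κ x = Pi.single i 1) :
    κ ((g : End ℤ_[2] M) x) = Pi.single (s i) 1 := by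
  funext m
  have h1 := h x (s⁻¹ m)
  rw [s_inv] at h1
  rw [h1, hx]
  by_cases hm : m = s i
  · rw [hm, inv_s, Pi.single_eq_same, Pi.single_eq_same]
  · rw [Pi.single_eq_of_ne hm, Pi.single_eq_of_ne]
    intro h2
    apply hm
    rw [← h2, s_inv]

theorem form_red {κ : M →+ (Ω → ZMod 2)} {R : End ℤ_[2] M →+* Matrix Ω Ω (ZMod 2)}
    {B : M →ₗ[ℤ_[2]] M →ₗ[ℤ_[2]] ℤ_[2]} (h : Setup κ R B) (C : End ℤ_[2] M) (x y : M) :
    PadicInt.toZMod (B (C x) y) = ∑ i, ((R C).mulVec (κ x)) i * κ y i := by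
  rw [h.dot, h.red]

end

/-- Job LINE. -/
theorem main : Line := by
  intro Ω _ _ hodd hcard M _ _ _ _ κ R B hS H hH hlift A hA hRA hline
  -- four distinct points
  obtain ⟨e⟩ : Nonempty (Fin 4 ↪ Ω) := Function.Embedding.nonempty_of_card_le (by
    rw [Fintype.card_fin]; omega)
  set i := e 0 with hi
  set j := e 1 with hj
  set k := e 2 with hk
  set l := e 3 with hl
  have hij : i ≠ j := fun h => by have := e.injective h; exact absurd this (by decide)
  have hik : i ≠ k := fun h => by have := e.injective h; exact absurd this (by decide)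
  have hil : i ≠ l := fun h => by have := e.injective h; exact absurd this (by decide)
  have hjk : j ≠ k := fun h => by have := e.injective h; exact absurd this (by decide)
  have hjl : j ≠ l := fun h => by have := e.injective h; exact absurd this (by decide)
  have hkl : k ≠ l := fun h => by have := e.injective h; exact absurd this (by decide)
  obtain ⟨g1, hg1, hl1⟩ := hlift (Equiv.swap i j)
  obtain ⟨g2, hg2, hl2⟩ := hlift (Equiv.swap i k * Equiv.swap j l)
  have hL1 : Lift κ g1 (Equiv.swap i j) := hl1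
  have hL2 : Lift κ g2 (Equiv.swap i k * Equiv.swap j l) := hl2
  set g : (End ℤ_[2] M)ˣ := g1 * g2 * g1⁻¹ * g2⁻¹ with hg
  have hgH : g ∈ H := H.mul_mem (H.mul_mem (H.mul_mem hg1 hg2) (H.inv_mem hg1)) (H.inv_mem hg2)
  set s : Equiv.Perm Ω := Equiv.swap i j * (Equiv.swap i k * Equiv.swap j l) * (Equiv.swap i j)⁻¹ *
    (Equiv.swap i k * Equiv.swap j l)⁻¹ with hs
  have hLg : Lift κ g s := ((hL1.mul hL2).mul hL1.inv).mul hL2.inv
  have hsi : s i = j := by
    rw [hs]
    simp only [Equiv.Perm.mul_apply, mul_inv_rev, Equiv.swap_inv]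
    rw [Equiv.swap_apply_left, Equiv.swap_apply_of_ne_of_ne hjk.symm hkl,
      Equiv.swap_apply_of_ne_of_ne hik.symm hjk.symm, Equiv.swap_apply_of_ne_of_ne hjk.symm hkl,
      Equiv.swap_apply_right, Equiv.swap_apply_left]
  have hsj : s j = i := by
    rw [hs]
    simp only [Equiv.Perm.mul_apply, mul_inv_rev, Equiv.swap_inv]
    rw [Equiv.swap_apply_of_ne_of_ne hij.symm hjk, Equiv.swap_apply_left,
      Equiv.swap_apply_of_ne_of_ne hil.symm hjl.symm, Equiv.swap_apply_right,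
      Equiv.swap_apply_of_ne_of_ne hij.symm hjk, Equiv.swap_apply_right]
  -- `g` commutes with `A`
  obtain ⟨c1, hc1⟩ := hline g1 hg1
  obtain ⟨c2, hc2⟩ := hline g2 hg2
  obtain ⟨d1, hd1⟩ := hline g1⁻¹ (H.inv_mem hg1)
  obtain ⟨d2, hd2⟩ := hline g2⁻¹ (H.inv_mem hg2)
  rw [inv_inv] at hd1 hd2
  have hcancel : ∀ (a : (End ℤ_[2] M)ˣ) (c d : ℤ_[2]),
      (a : End ℤ_[2] M) * A * ((a⁻¹ : (End ℤ_[2] M)ˣ) : End ℤ_[2] M) = c • A →
      ((a⁻¹ : (End ℤ_[2] M)ˣ) : End ℤ_[2] M) * A * (a : End ℤ_[2] M) = d • A → (c * d) • A = A := by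
    intro a c d h1 h2
    have h3 : (a : End ℤ_[2] M) * (((a⁻¹ : (End ℤ_[2] M)ˣ) : End ℤ_[2] M) * A * (a : End ℤ_[2] M)) *
        ((a⁻¹ : (End ℤ_[2] M)ˣ) : End ℤ_[2] M) = A := by
      have : (a : End ℤ_[2] M) * (((a⁻¹ : (End ℤ_[2] M)ˣ) : End ℤ_[2] M) * A * (a : End ℤ_[2] M)) *
        ((a⁻¹ : (End ℤ_[2] M)ˣ) : End ℤ_[2] M) = ((a : End ℤ_[2] M) *
          ((a⁻¹ : (End ℤ_[2] M)ˣ) : End ℤ_[2] M)) * A * ((a : End ℤ_[2] M) *
          ((a⁻¹ : (End ℤ_[2] M)ˣ) : End ℤ_[2] M)) := by noncomm_ring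
      rw [this, Units.mul_inv, one_mul, mul_one]
    rw [h2, mul_smul_comm, smul_mul_assoc, h1, smul_smul, mul_comm] at h3
    exact h3
  have hcd1 := hcancel g1 c1 d1 hc1 hd1
  have hcd2 := hcancel g2 c2 d2 hc2 hd2
  have hgA : (g : End ℤ_[2] M) * A * ((g⁻¹ : (End ℤ_[2] M)ˣ) : End ℤ_[2] M) = A := by
    have e1 : (g : End ℤ_[2] M) * A * ((g⁻¹ : (End ℤ_[2] M)ˣ) : End ℤ_[2] M) =
        (g1 : End ℤ_[2] M) * ((g2 : End ℤ_[2] M) * (((g1⁻¹ : (End ℤ_[2] M)ˣ) : End ℤ_[2] M) *
          (((g2⁻¹ : (End ℤ_[2] M)ˣ) : End ℤ_[2] M) * A * (g2 : End ℤ_[2] M)) * (g1 : End ℤ_[2] M)) *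
            ((g2⁻¹ : (End ℤ_[2] M)ˣ) : End ℤ_[2] M)) * ((g1⁻¹ : (End ℤ_[2] M)ˣ) : End ℤ_[2] M) := by
      rw [hg]
      simp only [mul_inv_rev, inv_inv, Units.val_mul]
      noncomm_ring
    rw [e1, hd2]
    simp only [mul_smul_comm, smul_mul_assoc]
    rw [hd1]
    simp only [mul_smul_comm, smul_mul_assoc]
    rw [hc2]
    simp only [mul_smul_comm, smul_mul_assoc]
    rw [hc1, smul_smul, smul_smul, smul_smul]
    have e2 : d2 * (d1 * (c2 * c1)) = (c1 * d1) * (c2 * d2) := by ring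
    have e3 : d2 * d1 * c2 * c1 = (c1 * d1) * (c2 * d2) := by ring
    first
      | rw [e2, mul_smul, hcd2, hcd1]
      | rw [e3, mul_smul, hcd2, hcd1]
  have hcomm : (g : End ℤ_[2] M) * A = A * (g : End ℤ_[2] M) := by
    have := congrArg (fun t => t * (g : End ℤ_[2] M)) hgA
    simp only [mul_assoc, Units.inv_mul, mul_one] at this
    exact this
  -- the endomorphism `C`
  obtain ⟨C, hC⟩ := (hS.rker (A - A * A)).1 (by
    rw [map_sub, map_mul, hRA, full_mul hodd, sub_self])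
  have hCg : ∀ m : M, (g : End ℤ_[2] M) (C m) = C ((g : End ℤ_[2] M) m) := by
    intro m
    apply two_inj
    have h1 : ∀ m : M, (2 : ℤ_[2]) • C m = A m - A (A m) := by
      intro m
      have := congrArg (fun t : End ℤ_[2] M => t m) hC
      simpa using this.symm
    have h2 : ∀ m : M, (g : End ℤ_[2] M) (A m) = A ((g : End ℤ_[2] M) m) := by
      intro m
      have := congrArg (fun t : End ℤ_[2] M => t m) hcomm
      simpa using this
    rw [← map_smul, h1, map_sub, h1, h2, h2, h2]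
  have h2C : ∀ m : M, (2 : ℤ_[2]) • C m = A m - A (A m) := by
    intro m
    have := congrArg (fun t : End ℤ_[2] M => t m) hC
    simpa using this.symm
  obtain ⟨x, hx⟩ := hS.surj (Pi.single i 1)
  obtain ⟨y, hy⟩ := hS.surj (Pi.single j 1)
  have hgx : κ ((g : End ℤ_[2] M) x) = κ y := by rw [hLg.single hx, hsi, hy]
  have hgy : κ ((g : End ℤ_[2] M) y) = κ x := by rw [hLg.single hy, hsj, hx]
  have hsym : PadicInt.toZMod (B (C x) y) = PadicInt.toZMod (B (C y) x) := by
    have h1 := hH g hgH (C x) y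
    rw [← h1, hCg, form_red hS, form_red hS, hgx, hgy]
  have hskew : B (C x) y + B x (C y) = B (A x) (A y) := by
    have h1 : (2 : ℤ_[2]) * (B (C x) y + B x (C y)) = 2 * B (A x) (A y) := by
      have e1 : (2 : ℤ_[2]) * B (C x) y = B (A x) y - B (A (A x)) y := by
        have : (2 : ℤ_[2]) * B (C x) y = B ((2 : ℤ_[2]) • C x) y := by
          rw [map_smul, LinearMap.smul_apply, smul_eq_mul]
        rw [this, h2C, map_sub, LinearMap.sub_apply]
      have e2 : (2 : ℤ_[2]) * B x (C y) = B x (A y) - B x (A (A y)) := by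
        have : (2 : ℤ_[2]) * B x (C y) = B x ((2 : ℤ_[2]) • C y) := by
          rw [map_smul, smul_eq_mul]
        rw [this, h2C, map_sub]
      have s1 := hA x y
      have s2 := hA (A x) y
      have s3 := hA x (A y)
      rw [mul_add, e1, e2]
      linear_combination s1 - s2 - s3
    exact mul_left_cancel₀ two_ne_zero h1
  have hfin := congrArg PadicInt.toZMod hskew
  rw [map_add] at hfin
  have hxC : PadicInt.toZMod (B x (C y)) = PadicInt.toZMod (B (C y) x) := by rw [hS.symm]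
  rw [hxC, ← hsym] at hfin
  have h0 : PadicInt.toZMod (B (C x) y) + PadicInt.toZMod (B (C x) y) = 0 := by
    exact CharTwo.add_self_eq_zero _
  rw [h0, hS.dot, hS.red, hS.red, hRA, hx, hy] at hfin
  have h1 : ∑ m, ((full Ω).mulVec (Pi.single i 1)) m * ((full Ω).mulVec (Pi.single j 1)) m = 1 := by
    have h2 : ∀ a m, ((full Ω).mulVec (Pi.single a 1)) m = full Ω m a := by
      intro a m
      rw [Matrix.mulVec_single_one]
      rfl
    simp only [h2]
    rw [full_sum hodd i j, if_neg hij]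
  rw [h1] at hfin
  exact absurd hfin (by decide)

end Pool.Agent.Q149.ND
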